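import Pool.Agent.H44.DU.Targets2

/-!
# Module UAL: the upper levels are good in almost every direction of `J`
-/

set_option autoImplicit false

namespace Pool.Agent.H54.DU

open MeasureTheory Pool.Agent.H44.DU

theorem pf_UAL (h1 : T_CO) (h2 : T_TL) (h3 : T_CPL) (h4 : T_ABL) (h5 : T_QB) (h6 : T_GA)
    (h7 : T_X5) (h8 : T_LU) : T_UAL := by
  intro n S J up lev α β hJ hconn hH hs l hl
  have hn : 0 < n := by
    obtain ⟨s, -⟩ := hs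
    exact Fin.pos s.1
  obtain ⟨hsym, hpath⟩ := h3 n S β hconn hs
  have hgd : ∀ᵐ t : ℝ, S.Gd t := by
    rw [ae_iff]
    exact (h1 n S).measure_zero volume
  have hloc : ∀ t₀ ∈ J, S.Gd t₀ → ∃ δ > 0, ∀ᵐ t : ℝ, |t - t₀| < δ →
      S.UGL (fun i => lev i = l) t := by
    intro t₀ ht₀ hg₀
    obtain ⟨N, hN⟩ := h2 n S t₀ (S.IntL β) hg₀ (fun s hs => hs.2.2) hsym hpath
    obtain ⟨δ₀, hδ₀, C, hC, ρ, hρ0, hρ1, hcon⟩ := h4 n S J up lev α β t₀ N l hJ hH ht₀ hg₀ hN hl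
    obtain ⟨c, hc, N', hQB⟩ := h5 n S (fun i => lev i = l) (|t₀| + δ₀) C ρ hC hρ0 hρ1
    obtain ⟨c₁, hc₁, hGain⟩ := h6 n S (|t₀| + δ₀)
    have hab : ∀ t, |t - t₀| < δ₀ → |t| ≤ |t₀| + δ₀ := by
      intro t ht
      have h9 : |t| ≤ |t - t₀| + |t₀| := by
        have := abs_add_le (t - t₀) t₀
        simpa using this
      linarith
    obtain ⟨δ', hδ', hX⟩ := h7 n S (fun i => lev i = l) t₀ δ₀ C ρ c N' hn hδ₀ hC hρ0 hρ1 hc
      (fun t ht => ⟨hcon t ht, hQB t (hab t ht) (hcon t ht)⟩)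
    refine ⟨min δ₀ δ', lt_min hδ₀ hδ', ?_⟩
    filter_upwards [hX, hgd] with t htX htg ht
    obtain ⟨m, hm, hnb⟩ := htX (lt_of_lt_of_le ht (min_le_right _ _))
    have ht0 : |t - t₀| < δ₀ := lt_of_lt_of_le ht (min_le_left _ _)
    exact h8 n S (fun i => lev i = l) t c₁ C ρ m htg hc₁ (hGain t (hab t ht0)) hC hρ0 hρ1
      (hcon t ht0) hm hnb
  have hz : volume {t : ℝ | t ∈ J ∧ S.Gd t ∧ ¬ S.UGL (fun i => lev i = l) t} = 0 := by
    apply measure_null_of_locally_null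
    rintro t₀ ⟨ht₀, hg₀, -⟩
    obtain ⟨δ, hδ, hae⟩ := hloc t₀ ht₀ hg₀
    refine ⟨{t : ℝ | ¬ (|t - t₀| < δ → S.UGL (fun i => lev i = l) t)}, ?_, ?_⟩
    · rw [mem_nhdsWithin]
      refine ⟨Metric.ball t₀ δ, Metric.isOpen_ball, Metric.mem_ball_self hδ, ?_⟩
      rintro t ⟨ht, -, -, hnU⟩
      rw [Metric.mem_ball, Real.dist_eq] at ht
      exact fun h => hnU (h ht)
    · rw [ae_iff] at hae
      exact hae
  have hz' : ∀ᵐ t : ℝ, ¬ (t ∈ J ∧ S.Gd t ∧ ¬ S.UGL (fun i => lev i = l) t) := by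
    rw [ae_iff]
    simpa using hz
  filter_upwards [hz', hgd] with t ht htg htJ
  by_contra hc
  exact ht ⟨htJ, htg, hc⟩

end Pool.Agent.H54.DU
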