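import Pool.Agent.H44.DU.Basic2

/-!
# Module P6 of du_modules: the backward orbits in the upper part are periodic
-/

set_option autoImplicit false

namespace Pool.Agent.H54.DU

open Pool.Agent.H44.DU Pool.Agent.H44.DU.Surf

theorem back_run {n : ℕ} (S : Surf n) {t : ℝ} {y : ℕ → Side n × ℝ}
    (hy : ∀ k, S.Tr t (y (k + 1)) (y k)) (m k : ℕ) :
    S.Run t ((List.range m).map fun j => (y (k + m - j)).1) (y (k + m)).2 := by
  induction m with
  | zero => simp [Run]
  | succ m ih =>
    have h1 : (List.range (m + 1)).map (fun j => (y (k + (m + 1) - j)).1) =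
        (y (k + m + 1)).1 :: (List.range m).map (fun j => (y (k + m - j)).1) := by
      rw [List.range_succ_eq_map, List.map_cons, List.map_map]
      congr 1
      apply List.map_congr_left
      intro j _
      simp only [Function.comp, Nat.succ_eq_add_one]
      congr 2
      omega
    have hk := hy (k + m)
    rw [h1]
    refine ⟨hk.1, ?_, ?_⟩
    · intro r' hr'
      cases m with
      | zero => simp at hr'
      | succ m =>
        rw [List.range_succ_eq_map] at hr'
        simp only [List.map_cons, List.head?_cons, Option.mem_def, Option.some.injEq,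
          Nat.sub_zero] at hr'
        rw [← hr']
        exact hk.2.2.1
    · have h2 : S.mv t (y (k + m + 1)).1 (y (k + (m + 1))).2 = (y (k + m)).2 := hk.2.2.2.symm
      rw [h2]
      exact ih

theorem pf_P6 (h1 : T_P3) (h2 : T_P4) : T_P6 := by
  intro n S U t c C ρ m hAbs hGd hc hGain hC hρ0 hρ1 hContr hm hNB y hy hyU
  obtain ⟨h3, h4⟩ := h1 n S U t m hAbs hm hNB
  -- windows
  set W : ℕ → List (Side n) := fun k => (List.range m).map fun j => (y (k + m - j)).1 with hWdef
  have hrun : ∀ k, S.Run t (W k) (y (k + m)).2 := fun k => back_run S hy m k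
  have hlen : ∀ k, (W k).length = m := fun k => by simp [hWdef]
  have hWU : ∀ k, ∀ r ∈ W k, U r.1 := by
    intro k r hr
    rw [hWdef] at hr
    simp only [List.mem_map, List.mem_range] at hr
    obtain ⟨j, _, rfl⟩ := hr
    exact hyU _
  have hRW : ∀ k, W k ∈ S.RW U t m := fun k => ⟨hlen k, hWU k, _, hrun k⟩
  choose Y hY1 hY2 hY3 hY4 using fun k => h3 (W k) (hRW k) (y (k + m)).2 (hrun k)
  have hYlet : ∀ k, ∀ j < m, (Y k j).1 = (y (k + m - j)).1 := by
    intro k j hj
    have h5 := hY4 k
    rw [hWdef] at h5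
    exact List.map_inj_left.1 h5 j (List.mem_range.2 hj)
  have hY0 : ∀ k, Y k 0 = y (k + m) := by
    intro k
    refine Prod.ext ?_ (hY2 k)
    have h5 := hYlet k 0 hm
    simpa using h5
  have hYj : ∀ k j, j ≤ k + m → Y k j = y (k + m - j) := by
    intro k j
    induction j with
    | zero => intro _; simpa using hY0 k
    | succ j ih =>
      intro hj
      have h5 := ih (by omega)
      have h6 := hY1 k j
      have h7 := hy (k + m - (j + 1))
      rw [show k + m - (j + 1) + 1 = k + m - j by omega, ← h5] at h7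
      exact S.tr_unique h6 h7
  -- letters of the chains with the same windows
  have hsame : ∀ k k', W k = W k' → ∀ j, (Y k j).1 = (Y k' j).1 := by
    intro k k' hkk
    refine h4 (Y k) (Y k') (hY1 k) (hY1 k') (hY3 k 0) ?_
    intro j hj
    have h5 : (List.range m).map (fun j => (Y k j).1) =
        (List.range m).map (fun j => (Y k' j).1) := by rw [hY4 k, hY4 k', hkk]
    exact List.map_inj_left.1 h5 j (List.mem_range.2 hj)
  -- infinitely many equal windows
  obtain ⟨W0, hW0⟩ : ∃ W0, {k | W k = W0}.Infinite := by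
    have hfin : Finite {w : List (Side n) // w.length = m} :=
      (List.finite_length_eq (Side n) m).to_subtype
    obtain ⟨w, hw⟩ := Finite.exists_infinite_fiber
      (fun k : ℕ => (⟨W k, hlen k⟩ : {w : List (Side n) // w.length = m}))
    refine ⟨w.1, ?_⟩
    have h5 : ((fun k : ℕ => (⟨W k, hlen k⟩ : {w : List (Side n) // w.length = m})) ⁻¹' {w}) =
        {k | W k = w.1} := by
      ext k
      simp only [Set.mem_preimage, Set.mem_singleton_iff, Set.mem_setOf_eq]
      exact Subtype.ext_iff
    rw [← h5]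
    exact Set.infinite_coe_iff.1 hw
  obtain ⟨k1, hk1⟩ := hW0.nonempty
  obtain ⟨k2, hk2, hlt⟩ := hW0.exists_gt k1
  simp only [Set.mem_setOf_eq] at hk1 hk2
  obtain ⟨p, hp⟩ : ∃ p, k2 = k1 + p := ⟨k2 - k1, by omega⟩
  have hp0 : 0 < p := by omega
  -- the letters of the first chain are periodic
  have hshift : ∀ j, Y k2 (p + j) = Y k1 j := by
    intro j
    induction j with
    | zero =>
      rw [add_zero, hYj k2 p (by omega), hY0 k1]
      congr 1
      omega
    | succ j ih =>
      have h5 := hY1 k2 (p + j)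
      rw [ih] at h5
      exact S.tr_unique h5 (hY1 k1 j)
  have hper : ∀ j, (Y k1 (j + p)).1 = (Y k1 j).1 := by
    intro j
    rw [← hsame k2 k1 (hk2.trans hk1.symm) (j + p), add_comm j p, hshift j]
  obtain ⟨z, hz1, hz2, hz3, -⟩ := h2 n S U t c C ρ m hAbs hGd hc hGain hC hρ0 hρ1 hContr hm hNB
    (Y k1) p (hY1 k1) (hY3 k1 0) hp0 hper
  have hzper : Function.Periodic z p := hz3
  -- infinitely many with the same residue
  obtain ⟨d, hd⟩ : ∃ d, {k | W k = W0 ∧ k1 ≤ k ∧ (k - k1) % p = d}.Infinite := by
    by_contra hcon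
    push Not at hcon
    have hfin : (⋃ d ∈ Finset.range p, {k | W k = W0 ∧ k1 ≤ k ∧ (k - k1) % p = d}).Finite :=
      Set.Finite.biUnion (Finset.finite_toSet _) fun d _ => hcon d
    refine (hW0.diff (Set.finite_Iio k1)) (hfin.subset ?_)
    rintro k ⟨h5, h6⟩
    simp only [Set.mem_Iio, not_lt] at h6
    simp only [Set.mem_iUnion, Finset.mem_range]
    exact ⟨(k - k1) % p, Nat.mod_lt _ hp0, h5, h6, rfl⟩
  set M : ℝ := xi t (S.P (z 0).1) - xi t (S.Q (z 0).1) with hM
  -- the estimate
  have hest : ∀ k, W k = W0 → k1 ≤ k →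
      (y (k1 + m)).1 = (z (k - k1)).1 ∧
      |(y (k1 + m)).2 - (z (k - k1)).2| ≤ C * ρ ^ (k - k1) * M := by
    intro k h5 h6
    have hl : ∀ j, (Y k j).1 = (z j).1 := fun j =>
      (hsame k k1 (h5.trans hk1.symm) j).trans (hz2 j).symm
    have h7 : Y k (k - k1) = y (k1 + m) := by
      rw [hYj k (k - k1) (by omega)]
      congr 1
      omega
    have h8 := S.chain_diff (hY1 k) hz1 hl 0 (k - k1)
    rw [zero_add, h7] at h8
    have h9 := S.chain_run (hY1 k) 0 (k - k1)
    have h10 := hContr _ _ (by
      intro r hr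
      simp only [List.mem_map, List.mem_range] at hr
      obtain ⟨j, _, rfl⟩ := hr
      exact hY3 k _) h9.1
    rw [h9.2.2, List.length_map, List.length_range] at h10
    have h11 : 0 < ∏ j ∈ Finset.range (k - k1), S.a (Y k (0 + j)).1 :=
      Finset.prod_pos fun j _ => S.a_pos _
    refine ⟨?_, ?_⟩
    · rw [← h7]; exact hl _
    · rw [h8, abs_mul, abs_of_pos h11]
      have h12 : |(Y k 0).2 - (z 0).2| ≤ M := by
        have h13 := (hY1 k 0).1
        have h14 := (hz1 0).1
        rw [hl 0] at h13
        rw [abs_le]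
        constructor
        · linarith [h13.1, h14.2]
        · linarith [h13.2, h14.1]
      have h15 : 0 ≤ C * ρ ^ (k - k1) := by positivity
      exact mul_le_mul h10 h12 (abs_nonneg _) h15
  have hkey : y (k1 + m) = z d := by
    have hlet : ∀ k, W k = W0 ∧ k1 ≤ k ∧ (k - k1) % p = d → z (k - k1) = z d := by
      rintro k ⟨_, _, h5⟩
      rw [← h5]
      exact (hzper.map_mod_nat (k - k1)).symm
    refine Prod.ext ?_ ?_
    · obtain ⟨k, hk⟩ := hd.nonempty
      rw [← hlet k hk]
      exact (hest k hk.1 hk.2.1).1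
    · by_contra hne
      have hpos : 0 < |(y (k1 + m)).2 - (z d).2| := abs_pos.2 (sub_ne_zero.2 hne)
      have hM0 : 0 ≤ M := by
        have h14 := (hz1 0).1
        linarith [h14.1, h14.2]
      have hlim : Filter.Tendsto (fun q : ℕ => C * ρ ^ q * M) Filter.atTop (nhds 0) := by
        have h5 := (tendsto_pow_atTop_nhds_zero_of_lt_one hρ0.le hρ1).const_mul C
        have h6 := h5.mul_const M
        simpa using h6
      obtain ⟨q, hq⟩ := (hlim.eventually (gt_mem_nhds hpos)).exists_forall_of_atTop
      obtain ⟨k, hk, hkq⟩ := hd.exists_gt (k1 + q)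
      have h5 := (hest k hk.1 hk.2.1).2
      rw [hlet k hk] at h5
      have h6 := hq (k - k1) (by omega)
      linarith
  -- conclusion
  have hend : ∀ i, i ≤ k1 + m → y (k1 + m - i) = z (d + i) := by
    intro i
    induction i with
    | zero => intro _; simpa using hkey
    | succ i ih =>
      intro hi
      have h5 := ih (by omega)
      have h6 := hy (k1 + m - (i + 1))
      rw [show k1 + m - (i + 1) + 1 = k1 + m - i by omega, h5] at h6
      exact S.tr_unique h6 (hz1 (d + i))
  have h5 := hend (k1 + m) le_rfl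
  rw [Nat.sub_self] at h5
  rw [h5]
  exact S.chain_tper hz1 hp0 hz3 _

end Pool.Agent.H54.DU
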